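import Pool.Agent.helper1.CD.Spec

set_option autoImplicit false

open NumberField IsDedekindDomain Complex Pool.Agent.CH Pool.Agent.GK

namespace Pool.Agent.CD

theorem LBD_cc1 {F : Type} [Field F] [NumberField F] {χ : Ideal (𝓞 F) → ℂ} (h : CM χ) : cc χ 1 = 1 := by
  have h1 : idl F 1 = {⊤} := by
    ext a
    unfold idl
    rw [Set.Finite.mem_toFinset, Finset.mem_singleton]
    exact Ideal.absNorm_eq_one_iff
  unfold cc
  rw [h1, Finset.sum_singleton, h.one]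

theorem LBD_bdd {L : ℂ → ℂ} (hL : Differentiable ℂ L) (h1 : L 1 ≠ 0) : ∃ C δ : ℝ, 0 < δ ∧ ∀ s : ℝ, |s - 1| < δ → L s ≠ 0 ∧ ‖deriv L s / L s‖ ≤ C := by
  have hd : Continuous (deriv L) := (hL.contDiff (n := 1)).continuous_deriv le_rfl
  have h2 : Continuous fun s : ℝ => L s := hL.continuous.comp Complex.continuous_ofReal
  have h3 : Continuous fun s : ℝ => deriv L s := hd.comp Complex.continuous_ofReal
  have h4 : L ((1 : ℝ) : ℂ) ≠ 0 := by rwa [Complex.ofReal_one]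
  have h5 : ContinuousAt (fun s : ℝ => ‖deriv L s / L s‖) 1 := (h3.continuousAt.div h2.continuousAt h4).norm
  have h6 : ∀ᶠ s : ℝ in nhds 1, L s ≠ 0 ∧ ‖deriv L s / L s‖ ≤ ‖deriv L ((1 : ℝ) : ℂ) / L ((1 : ℝ) : ℂ)‖ + 1 := by
    filter_upwards [h2.continuousAt.eventually_ne h4, h5.eventually (Iio_mem_nhds (lt_add_one _))] with s hs hs'
    exact ⟨hs, le_of_lt hs'⟩
  obtain ⟨δ, hδ, h7⟩ := Metric.eventually_nhds_iff.1 h6
  exact ⟨_, δ, hδ, fun s hs => h7 (by rwa [Real.dist_eq])⟩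

theorem LBD (hCID : CID_stmt) (hCSM : CSM_stmt) (hEXL : EXL_stmt) (hLGB : LGB_stmt) : LBD_stmt := by
  intro F _ _ χ L hχ hL hLs hL1
  obtain ⟨CB, hCB⟩ := hLGB F
  obtain ⟨C, δ, hδ, hC⟩ := LBD_bdd hL hL1
  -- the logarithm
  have hexp : ∀ s : ℂ, 1 < s.re → Complex.exp (LSeries (lg χ) s) = L s := by
    intro s hs
    have h1 := (hEXL (cc χ) (zz χ) (LBD_cc1 hχ) (fun s hs => ⟨(hCSM F χ hχ s hs).1, (hCSM F χ hχ s hs).2.1⟩) (fun n hn => hCID F χ hχ n hn)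
      (fun s hs => (hCSM F χ hχ s hs).2.2) s hs).1
    rw [← hLs s hs, ← h1]
    rfl
  have habs : LSeries.abscissaOfAbsConv (lg χ) ≤ 1 := by
    refine LSeries.abscissaOfAbsConv_le_of_forall_lt_LSeriesSummable' ?_
    intro y hy
    have hy1 : (1 : ℝ) < y := by exact_mod_cast hy
    exact (hCSM F χ hχ (y : ℂ) (by rw [Complex.ofReal_re]; exact hy1)).2.2
  have hdiff : ∀ s : ℂ, 1 < s.re → HasDerivAt (LSeries (lg χ)) (deriv (LSeries (lg χ)) s) s := by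
    intro s hs
    have h1 : LSeries.abscissaOfAbsConv (lg χ) < (s.re : EReal) := lt_of_le_of_lt habs (by exact_mod_cast hs)
    exact (LSeries_hasDerivAt h1).differentiableAt.hasDerivAt
  have hder : ∀ s : ℂ, 1 < s.re → L s ≠ 0 → deriv (LSeries (lg χ)) s = deriv L s / L s := by
    intro s hs h0
    have h1 : HasDerivAt (fun w => Complex.exp (LSeries (lg χ) w)) (Complex.exp (LSeries (lg χ) s) * deriv (LSeries (lg χ)) s) s :=
      (hdiff s hs).cexp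
    have h2 : deriv L s = Complex.exp (LSeries (lg χ) s) * deriv (LSeries (lg χ)) s := by
      rw [← h1.deriv]
      apply Filter.EventuallyEq.deriv_eq
      filter_upwards [(isOpen_lt continuous_const Complex.continuous_re).mem_nhds hs] with w hw
      exact (hexp w hw).symm
    rw [h2, hexp s hs]
    field_simp
  have hs0 : (1 : ℝ) < 1 + δ / 2 := by linarith
  refine ⟨CB + (‖LSeries (lg χ) ((1 + δ / 2 : ℝ) : ℂ)‖ + |C| * δ), δ, hδ, ?_⟩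
  intro s hs hs'
  have hbound : ‖LSeries (lg χ) (s : ℂ)‖ ≤ ‖LSeries (lg χ) ((1 + δ / 2 : ℝ) : ℂ)‖ + |C| * δ := by
    have h1 : ∀ x ∈ Set.Ioo (1 : ℝ) (1 + δ), HasDerivWithinAt (fun t : ℝ => LSeries (lg χ) (t : ℂ)) (deriv (LSeries (lg χ)) (x : ℂ)) (Set.Ioo (1 : ℝ) (1 + δ)) x := by
      intro x hx
      exact (hdiff (x : ℂ) (by rw [Complex.ofReal_re]; exact hx.1)).comp_ofReal.hasDerivWithinAt
    have h2 : ∀ x ∈ Set.Ioo (1 : ℝ) (1 + δ), ‖deriv (LSeries (lg χ)) (x : ℂ)‖ ≤ |C| := by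
      intro x hx
      have hx1 : |x - 1| < δ := by
        rw [abs_lt]
        exact ⟨by linarith [hx.1], by linarith [hx.2]⟩
      obtain ⟨h3, h4⟩ := hC x hx1
      rw [hder (x : ℂ) (by rw [Complex.ofReal_re]; exact hx.1) h3]
      exact h4.trans (le_abs_self C)
    have h3 := (convex_Ioo (1 : ℝ) (1 + δ)).norm_image_sub_le_of_norm_hasDerivWithin_le h1 h2 (x := 1 + δ / 2) (y := s)
      ⟨hs0, by linarith⟩ ⟨hs, hs'⟩
    have h4 : ‖s - (1 + δ / 2)‖ ≤ δ := by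
      rw [Real.norm_eq_abs, abs_le]
      exact ⟨by linarith, by linarith⟩
    have h5 : |C| * ‖s - (1 + δ / 2)‖ ≤ |C| * δ := mul_le_mul_of_nonneg_left h4 (abs_nonneg C)
    have h6 : ‖LSeries (lg χ) (s : ℂ)‖ ≤ ‖LSeries (lg χ) ((1 + δ / 2 : ℝ) : ℂ)‖ + ‖LSeries (lg χ) (s : ℂ) - LSeries (lg χ) ((1 + δ / 2 : ℝ) : ℂ)‖ := by
      have h7 := norm_add_le (LSeries (lg χ) ((1 + δ / 2 : ℝ) : ℂ)) (LSeries (lg χ) (s : ℂ) - LSeries (lg χ) ((1 + δ / 2 : ℝ) : ℂ))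
      rwa [add_sub_cancel] at h7
    linarith
  have h8 := (hCB χ hχ s hs).2.2.1
  have h9 : ‖∑' p : Nat.Primes, cc χ p * (((p : ℕ) : ℂ) ^ (-(s : ℂ)))‖ ≤ ‖LSeries (lg χ) (s : ℂ)‖ + ‖LSeries (lg χ) (s : ℂ) - ∑' p : Nat.Primes, cc χ p * (((p : ℕ) : ℂ) ^ (-(s : ℂ)))‖ := by
    have h10 := norm_sub_le (LSeries (lg χ) (s : ℂ)) (LSeries (lg χ) (s : ℂ) - ∑' p : Nat.Primes, cc χ p * (((p : ℕ) : ℂ) ^ (-(s : ℂ))))
    rwa [sub_sub_cancel] at h10
  linarith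

end Pool.Agent.CD
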